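import Mathlib

set_option autoImplicit false
open Filter Topology Finset

namespace Pool.Agent.Results.MP_653f52_an.LogGrowthFamily

/-- `x` is a trajectory of the discrete-time switching system given by the set `𝒜` of matrices. -/
def IsTrajectory {d : ℕ} (𝒜 : Set (Matrix (Fin d) (Fin d) ℝ)) (x : ℕ → Fin d → ℝ) : Prop :=
  ∀ k, ∃ A ∈ 𝒜, x (k + 1) = A.mulVec (x k)

/-- all products of `k` elements of `𝒜` -/
def prods {d : ℕ} (𝒜 : Set (Matrix (Fin d) (Fin d) ℝ)) : ℕ → Set (Matrix (Fin d) (Fin d) ℝ)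
  | 0 => {1}
  | k + 1 => {P | ∃ A ∈ 𝒜, ∃ Q ∈ prods 𝒜 k, P = A * Q}

/-- the operator norm of a matrix induced by the sup norm on `ℝ^d`: the largest absolute row sum -/
noncomputable def opNorm {d : ℕ} (P : Matrix (Fin d) (Fin d) ℝ) : ℝ := ⨆ i, ∑ j, |P i j|

/-- `r` is the joint spectral radius of `𝒜` -/
def IsJointSpectralRadius {d : ℕ} (𝒜 : Set (Matrix (Fin d) (Fin d) ℝ)) (r : ℝ) : Prop :=
  Tendsto (fun k : ℕ => (sSup (opNorm '' prods 𝒜 k)) ^ (1 / (k : ℝ))) atTop (𝓝 r)

/-- every trajectory is bounded -/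
def BoundedSystem {d : ℕ} (𝒜 : Set (Matrix (Fin d) (Fin d) ℝ)) : Prop :=
  ∀ x, IsTrajectory 𝒜 x → ∃ C : ℝ, ∀ k, ‖x k‖ ≤ C

/-- joint spectral radius `1`, but not all trajectories are bounded -/
def MarginallyUnstable {d : ℕ} (𝒜 : Set (Matrix (Fin d) (Fin d) ℝ)) : Prop :=
  IsJointSpectralRadius 𝒜 1 ∧ ¬ BoundedSystem 𝒜

/-- every trajectory is `O(k^α)` for every `α > 0` -/
def SubpolynomialGrowth {d : ℕ} (𝒜 : Set (Matrix (Fin d) (Fin d) ℝ)) : Prop :=
  ∀ x, IsTrajectory 𝒜 x → ∀ α : ℝ, 0 < α → ∃ C : ℝ, ∀ k : ℕ, 1 ≤ k → ‖x k‖ ≤ C * (k : ℝ) ^ α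

/-! ### the family -/

/-- real harmonic numbers -/
noncomputable def H (n : ℕ) : ℝ := ∑ i ∈ range n, 1 / ((i : ℝ) + 1)

lemma H_succ (n : ℕ) : H (n + 1) = H n + 1 / ((n : ℝ) + 1) := sum_range_succ _ _

lemma H_mono : Monotone H := monotone_nat_of_le_succ fun n => by
  rw [H_succ]; have : (0 : ℝ) < 1 / ((n : ℝ) + 1) := by positivity
  linarith

lemma one_le_H (n : ℕ) : 1 ≤ H (n + 1) := by
  have := H_mono (show 1 ≤ n + 1 by omega)
  have h1 : H 1 = 1 := by simp [H]
  linarith

lemma H_eq (n : ℕ) : H n = (harmonic n : ℝ) := by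
  simp [H, harmonic]

lemma H_le (n : ℕ) : H n ≤ 1 + Real.log n := by rw [H_eq]; exact harmonic_le_one_add_log n

lemma H_tendsto : Tendsto H atTop atTop := by
  have h1 : Tendsto (fun n : ℕ => Real.log ((n : ℝ) + 1)) atTop atTop :=
    Real.tendsto_log_atTop.comp (tendsto_atTop_add_const_right _ _ tendsto_natCast_atTop_atTop)
  refine tendsto_atTop_mono (fun n => ?_) h1
  rw [H_eq]
  have := log_add_one_le_harmonic n
  push_cast at this
  exact this

/-- the matrices `A_n` -/
noncomputable def A (n : ℕ) : Matrix (Fin 2) (Fin 2) ℝ :=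
  !![1, 1 / ((n : ℝ) + 1); 0, 1 - 1 / (((n : ℝ) + 1) * H (n + 1))]

/-- the family -/
def fam : Set (Matrix (Fin 2) (Fin 2) ℝ) := insert 1 (Set.range A)

lemma A_tendsto : Tendsto A atTop (𝓝 1) := by
  have h1 : Tendsto (fun n : ℕ => 1 / ((n : ℝ) + 1)) atTop (𝓝 0) := tendsto_one_div_add_atTop_nhds_zero_nat
  have h2 : Tendsto (fun n : ℕ => 1 / (((n : ℝ) + 1) * H (n + 1))) atTop (𝓝 0) := by
    refine squeeze_zero (fun n => ?_) (fun n => ?_) h1
    · have := one_le_H n
      positivity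
    · have := one_le_H n
      apply one_div_le_one_div_of_le (by positivity)
      have : (0 : ℝ) ≤ n := Nat.cast_nonneg n
      nlinarith
  refine tendsto_pi_nhds.2 fun i => tendsto_pi_nhds.2 fun j => ?_
  fin_cases i <;> fin_cases j
  · simp [A]
  · simpa [A] using h1
  · simp [A]
  · have h3 := h2.const_sub 1
    rw [sub_zero] at h3
    simpa [A] using h3

lemma fam_compact : IsCompact fam := A_tendsto.isCompact_insert_range

/-- the invariant of products -/
def Inv (k : ℕ) (P : Matrix (Fin 2) (Fin 2) ℝ) : Prop :=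
  ∃ u v : ℝ, P = !![1, u; 0, v] ∧ 0 ≤ u ∧ 0 ≤ v ∧ v ≤ 1 ∧
    ∀ K : ℕ, 1 ≤ K → u ≤ H K * (1 - v) + k / K

lemma inv_prods (k : ℕ) : ∀ P ∈ prods fam k, Inv k P := by
  induction k with
  | zero =>
    intro P hP
    simp only [prods, Set.mem_singleton_iff] at hP
    subst hP
    refine ⟨0, 1, ?_, le_rfl, zero_le_one, le_rfl, fun K hK => by simp⟩
    ext i j; fin_cases i <;> fin_cases j <;> simp
  | succ k ih =>
    intro P hP
    obtain ⟨B, hB, Q, hQ, rfl⟩ := hP
    obtain ⟨u, v, rfl, hu, hv0, hv1, huK⟩ := ih Q hQ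
    rcases hB with hB | ⟨n, rfl⟩
    · subst hB
      refine ⟨u, v, by simp, hu, hv0, hv1, fun K hK => ?_⟩
      have h1 := huK K hK
      have hK' : (0 : ℝ) < K := by exact_mod_cast hK
      have h2 : ((k : ℕ) : ℝ) / K ≤ ((k + 1 : ℕ) : ℝ) / K := by
        gcongr; linarith
      linarith
    · have hH := one_le_H n
      have hn : (0 : ℝ) ≤ n := Nat.cast_nonneg n
      set t : ℝ := 1 / ((n : ℝ) + 1) with ht
      have ht0 : 0 < t := by positivity
      have ht1 : t ≤ 1 := by rw [ht, div_le_one (by positivity)]; linarith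
      set g : ℝ := 1 / (((n : ℝ) + 1) * H (n + 1)) with hg
      have hgt : g * H (n + 1) = t := by rw [hg, ht]; field_simp
      have hg0 : 0 < g := by positivity
      have hg1 : g ≤ 1 := by nlinarith
      refine ⟨u + t * v, (1 - g) * v, ?_, ?_, ?_, ?_, ?_⟩
      · simp only [A]
        ext i j
        fin_cases i <;> fin_cases j <;> simp [Matrix.mul_apply, Fin.sum_univ_two, ht, hg]
      · positivity
      · exact mul_nonneg (by linarith) hv0
      · nlinarith
      · intro K hK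
        have h1 := huK K hK
        have hK' : (0 : ℝ) < K := by exact_mod_cast hK
        have e1 : ((k + 1 : ℕ) : ℝ) / K = k / K + 1 / K := by push_cast; ring
        rw [e1]
        rcases le_or_gt (n + 1) K with hle | hlt
        · have h2 : H (n + 1) ≤ H K := H_mono hle
          have h3 : t * v ≤ H K * (g * v) := by
            have h4 : 0 ≤ g * v := by positivity
            have h5 : t * v = H (n + 1) * (g * v) := by rw [← hgt]; ring
            rw [h5]
            exact mul_le_mul_of_nonneg_right h2 h4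
          have h6 : 0 < 1 / (K : ℝ) := by positivity
          nlinarith
        · have h2 : t ≤ 1 / (K : ℝ) := by
            rw [ht]
            apply one_div_le_one_div_of_le hK'
            have : ((K : ℕ) : ℝ) ≤ ((n + 1 : ℕ) : ℝ) := by exact_mod_cast hlt.le
            push_cast at this
            exact this
          have h3 : t * v ≤ 1 / (K : ℝ) := by nlinarith
          have h4 : 0 ≤ H K * (g * v) := by
            have : 0 ≤ H K := sum_nonneg fun i _ => by positivity
            positivity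
          nlinarith

lemma opNorm_of_inv {k : ℕ} {P : Matrix (Fin 2) (Fin 2) ℝ} (hk : 1 ≤ k) (h : Inv k P) :
    1 ≤ opNorm P ∧ opNorm P ≤ 2 + H k := by
  obtain ⟨u, v, rfl, hu, hv0, hv1, huK⟩ := h
  have h1 := huK k hk
  have hk' : (0 : ℝ) < k := by exact_mod_cast hk
  rw [div_self hk'.ne'] at h1
  have hH : 0 ≤ H k := sum_nonneg fun i _ => by positivity
  have hu2 : u ≤ H k + 1 := by nlinarith
  have hbdd : BddAbove (Set.range fun i => ∑ j, |(!![1, u; 0, v] : Matrix (Fin 2) (Fin 2) ℝ) i j|) :=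
    Set.Finite.bddAbove (Set.finite_range _)
  constructor
  · have h2 := le_ciSup hbdd 0
    refine le_trans ?_ h2
    simp [Fin.sum_univ_two]
  · apply ciSup_le
    intro i
    fin_cases i
    · simp [Fin.sum_univ_two, abs_of_nonneg hu]; linarith
    · simp [Fin.sum_univ_two, abs_of_nonneg hv0]; linarith

lemma prods_nonempty (k : ℕ) : (prods fam k).Nonempty := by
  induction k with
  | zero => exact ⟨1, rfl⟩
  | succ k ih =>
    obtain ⟨Q, hQ⟩ := ih
    exact ⟨1 * Q, 1, Set.mem_insert _ _, Q, hQ, rfl⟩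

lemma jsr_one : IsJointSpectralRadius fam 1 := by
  unfold IsJointSpectralRadius
  have hlow : ∀ k : ℕ, 1 ≤ k → 1 ≤ sSup (opNorm '' prods fam k) := by
    intro k hk
    obtain ⟨P, hP⟩ := prods_nonempty k
    have hb : BddAbove (opNorm '' prods fam k) := by
      refine ⟨2 + H k, ?_⟩
      rintro _ ⟨Q, hQ, rfl⟩
      exact (opNorm_of_inv hk (inv_prods k Q hQ)).2
    exact (opNorm_of_inv hk (inv_prods k P hP)).1.trans (le_csSup hb ⟨P, hP, rfl⟩)
  have hup : ∀ k : ℕ, 1 ≤ k → sSup (opNorm '' prods fam k) ≤ 3 * k := by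
    intro k hk
    apply csSup_le ((prods_nonempty k).image _)
    rintro _ ⟨Q, hQ, rfl⟩
    have h1 := (opNorm_of_inv hk (inv_prods k Q hQ)).2
    have h2 := H_le k
    have hk' : (1 : ℝ) ≤ k := by exact_mod_cast hk
    have h3 := Real.log_le_sub_one_of_pos (show (0 : ℝ) < k by linarith)
    linarith
  have hlim : Tendsto (fun k : ℕ => (3 * (k : ℝ)) ^ (1 / (k : ℝ))) atTop (𝓝 1) := by
    have h1 := tendsto_rpow_div_mul_add 3 1 0 (by norm_num)
    have h2 : Tendsto (fun k : ℕ => 3 * (k : ℝ)) atTop atTop :=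
      tendsto_natCast_atTop_atTop.const_mul_atTop (by norm_num)
    refine (h1.comp h2).congr' ?_
    filter_upwards [eventually_gt_atTop 0] with k hk
    have hk' : (0 : ℝ) < k := by exact_mod_cast hk
    simp only [Function.comp, one_mul, add_zero]
    congr 1
    field_simp
  refine tendsto_of_tendsto_of_tendsto_of_le_of_le' tendsto_const_nhds hlim ?_ ?_
  · filter_upwards [eventually_ge_atTop 1] with k hk
    exact Real.one_le_rpow (hlow k hk) (by positivity)
  · filter_upwards [eventually_ge_atTop 1] with k hk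
    exact Real.rpow_le_rpow (by linarith [hlow k hk]) (hup k hk) (by positivity)

/-- an unbounded trajectory -/
noncomputable def traj (i : ℕ) : Fin 2 → ℝ :=
  ![∑ j ∈ range i, 1 / (((j : ℝ) + 2) * H (j + 1)), 1 / H (i + 1)]

lemma traj_isTrajectory : IsTrajectory fam traj := by
  intro k
  refine ⟨A (k + 1), Set.mem_insert_of_mem _ ⟨k + 1, rfl⟩, ?_⟩
  have h1 := one_le_H k
  have h2 := one_le_H (k + 1)
  have h3 := H_succ (k + 1)
  push_cast at h3
  ext i
  fin_cases i
  · simp only [traj, A, sum_range_succ]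
    simp [Matrix.mulVec, dotProduct, Fin.sum_univ_two]
    ring
  · simp only [traj, A]
    simp only [Matrix.mulVec, dotProduct, Fin.sum_univ_two]
    simp
    have e1 : (k : ℝ) + 1 + 1 ≠ 0 := by positivity
    have e2 : H (k + 1 + 1) ≠ 0 := by linarith
    have e3 : H (k + 1) ≠ 0 := by linarith
    have e4 : H (k + 1) = H (k + 1 + 1) - 1 / ((k : ℝ) + 1 + 1) := by linarith
    field_simp
    rw [e4]
    field_simp

lemma traj_unbounded : ¬ BoundedSystem fam := by
  intro hb
  obtain ⟨C, hC⟩ := hb traj traj_isTrajectory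
  have hlog : ∀ i, Real.log (H (i + 1)) ≤ traj i 0 := by
    intro i
    induction i with
    | zero => simp [traj, H]
    | succ i ih =>
      have h1 := one_le_H i
      have h2 := one_le_H (i + 1)
      have h3 := H_succ (i + 1)
      push_cast at h3
      have h4 : traj (i + 1) 0 = traj i 0 + 1 / (((i : ℝ) + 2) * H (i + 1)) := by
        simp [traj, sum_range_succ]
      have hpos : 0 < H (i + 1) := by linarith
      have h5 : Real.log (H (i + 1 + 1)) = Real.log (H (i + 1)) + Real.log (H (i + 1 + 1) / H (i + 1)) := by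
        rw [Real.log_div (by linarith) hpos.ne']; ring
      have h6 := Real.log_le_sub_one_of_pos (show 0 < H (i + 1 + 1) / H (i + 1) by positivity)
      have h7 : H (i + 1 + 1) / H (i + 1) - 1 = 1 / (((i : ℝ) + 2) * H (i + 1)) := by
        rw [h3]
        have e1 : (i : ℝ) + 1 + 1 ≠ 0 := by positivity
        have e2 : (i : ℝ) + 2 ≠ 0 := by positivity
        field_simp
        ring
      rw [h4, h5]
      linarith
  have htend : Tendsto (fun i => Real.log (H (i + 1))) atTop atTop :=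
    Real.tendsto_log_atTop.comp (H_tendsto.comp (tendsto_add_atTop_nat 1))
  obtain ⟨i, hi⟩ := (htend.eventually_gt_atTop C).exists
  have h1 := hlog i
  have h2 := hC i
  have h3 : |traj i 0| ≤ ‖traj i‖ := by
    rw [← Real.norm_eq_abs]; exact norm_le_pi_norm (traj i) 0
  have h4 := le_abs_self (traj i 0)
  linarith

lemma mulVec_norm_le {k : ℕ} {P : Matrix (Fin 2) (Fin 2) ℝ} (hk : 1 ≤ k) (h : Inv k P)
    (x : Fin 2 → ℝ) : ‖P.mulVec x‖ ≤ (2 + H k) * ‖x‖ := by
  obtain ⟨u, v, rfl, hu, hv0, hv1, huK⟩ := h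
  have h1 := huK k hk
  have hk' : (0 : ℝ) < k := by exact_mod_cast hk
  rw [div_self hk'.ne'] at h1
  have hH : 0 ≤ H k := sum_nonneg fun i _ => by positivity
  have hu2 : u ≤ H k + 1 := by nlinarith
  have hx0 : |x 0| ≤ ‖x‖ := by rw [← Real.norm_eq_abs]; exact norm_le_pi_norm x 0
  have hx1 : |x 1| ≤ ‖x‖ := by rw [← Real.norm_eq_abs]; exact norm_le_pi_norm x 1
  have hx : 0 ≤ ‖x‖ := norm_nonneg x
  rw [pi_norm_le_iff_of_nonneg (by positivity)]
  intro i
  fin_cases i
  · simp only [Matrix.mulVec, dotProduct, Fin.sum_univ_two]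
    simp
    calc |x 0 + u * x 1| ≤ |x 0| + |u * x 1| := abs_add_le _ _
      _ = |x 0| + u * |x 1| := by rw [abs_mul, abs_of_nonneg hu]
      _ ≤ ‖x‖ + (H k + 1) * ‖x‖ := by
          have := mul_le_mul hu2 hx1 (abs_nonneg _) (by linarith)
          linarith
      _ = (2 + H k) * ‖x‖ := by ring
  · simp only [Matrix.mulVec, dotProduct, Fin.sum_univ_two]
    simp
    rw [abs_of_nonneg hv0]
    calc v * |x 1| ≤ 1 * ‖x‖ := mul_le_mul hv1 hx1 (abs_nonneg _) zero_le_one
      _ ≤ (2 + H k) * ‖x‖ := by nlinarith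

lemma growth {x : ℕ → Fin 2 → ℝ} (hx : IsTrajectory fam x) (k : ℕ) (hk : 1 ≤ k) :
    ‖x k‖ ≤ (3 + Real.log k) * ‖x 0‖ := by
  have h1 : ∀ k, ∃ P ∈ prods fam k, x k = P.mulVec (x 0) := by
    intro k
    induction k with
    | zero => exact ⟨1, rfl, by simp⟩
    | succ k ih =>
      obtain ⟨P, hP, hxk⟩ := ih
      obtain ⟨B, hB, hB'⟩ := hx k
      refine ⟨B * P, ⟨B, hB, P, hP, rfl⟩, ?_⟩
      rw [hB', hxk, Matrix.mulVec_mulVec]
  obtain ⟨P, hP, hxk⟩ := h1 k
  rw [hxk]
  refine (mulVec_norm_le hk (inv_prods k P hP) (x 0)).trans ?_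
  apply mul_le_mul_of_nonneg_right _ (norm_nonneg _)
  have := H_le k
  linarith

lemma subpoly : SubpolynomialGrowth fam := by
  intro x hx α hα
  refine ⟨(3 + 1 / α) * ‖x 0‖, fun k hk => ?_⟩
  have hk' : (1 : ℝ) ≤ k := by exact_mod_cast hk
  have h1 := growth hx k hk
  have h2 : Real.log k ≤ (k : ℝ) ^ α / α := Real.log_le_rpow_div (by linarith) hα
  have h3 : 1 ≤ (k : ℝ) ^ α := Real.one_le_rpow hk' hα.le
  have h4 : 3 + Real.log k ≤ (3 + 1 / α) * (k : ℝ) ^ α := by
    have : (3 + 1 / α) * (k : ℝ) ^ α = 3 * (k : ℝ) ^ α + (k : ℝ) ^ α / α := by ring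
    rw [this]; linarith
  calc ‖x k‖ ≤ (3 + Real.log k) * ‖x 0‖ := h1
    _ ≤ ((3 + 1 / α) * (k : ℝ) ^ α) * ‖x 0‖ := mul_le_mul_of_nonneg_right h4 (norm_nonneg _)
    _ = _ := by ring

/-- **Full answer to Q1: yes, in discrete time with `d = 2`.** There is a nonempty compact set `𝒜`
of real `2 × 2` matrices whose switching system is marginally unstable (joint spectral radius `1`
and some unbounded trajectory) and has subpolynomial growth; in fact every trajectory satisfies
`‖x(k)‖ ≤ (3 + log k) ‖x(0)‖`. -/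
theorem result : ∃ 𝒜 : Set (Matrix (Fin 2) (Fin 2) ℝ), IsCompact 𝒜 ∧ 𝒜.Nonempty ∧
    MarginallyUnstable 𝒜 ∧ SubpolynomialGrowth 𝒜 ∧
    ∀ x, IsTrajectory 𝒜 x → ∀ k : ℕ, 1 ≤ k → ‖x k‖ ≤ (3 + Real.log k) * ‖x 0‖ :=
  ⟨fam, fam_compact, ⟨1, Set.mem_insert _ _⟩, ⟨jsr_one, traj_unbounded⟩, subpoly,
    fun _ hx k hk => growth hx k hk⟩

end Pool.Agent.Results.MP_653f52_an.LogGrowthFamily
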